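import Pool.Agent.Helper28.MT.Goals3

/-!
# MT3-POTS3 (MP_bb782b_co): the potential does not increase
-/

set_option autoImplicit false

namespace Pool.Agent.Helper98.MT3

open Finset Pool.Agent.Helper28.MT3

theorem us_succ (u : ℕ → ℕ → ℕ → ℕ) (l p j : ℕ) :
    us u l p (j + 1) = (if j / 2 ^ l + 2 ≤ p then u j l p else 0) + us u l p j := by
  unfold us
  rw [range_add_one, filter_insert]
  split_ifs with h
  · rw [sum_insert (by simp)]
  · rw [zero_add]

theorem exp_le (t : ℝ) (h0 : 0 ≤ t) (h1 : t ≤ 1) : Real.exp t ≤ 1 + 2 * t := by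
  have h2 := Real.abs_exp_sub_one_sub_id_le (x := t) (by rw [abs_of_nonneg h0]; exact h1)
  have h3 := (abs_le.1 h2).2
  nlinarith

theorem term_le (k s : ℕ) (u : ℕ → ℕ → ℕ → ℕ) (j l p : ℕ) (hk : 0 < k)
    (hu : u j l p ≤ k) :
    Real.exp ((us u l p (j + 1) : ℝ) / k - ds k s l p (j + 1)) / 4 ^ (s - l) ≤
      Real.exp ((us u l p j : ℝ) / k - ds k s l p j) / 4 ^ (s - l) +
        2 / k * ((if j / 2 ^ l + 2 ≤ p then wp k s u l p j * u j l p else 0) -
          wp k s u l p j * (k / 2 * dr k s l p j)) := by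
  have hk0 : (0 : ℝ) < k := by exact_mod_cast hk
  have hw0 : 0 ≤ wp k s u l p j := by
    unfold wp
    positivity
  have hds : ds k s l p (j + 1) = ds k s l p j + dr k s l p j := by
    unfold ds
    rw [sum_range_succ]
  have e1 : Real.exp ((us u l p (j + 1) : ℝ) / k - ds k s l p (j + 1)) / 4 ^ (s - l) =
      wp k s u l p j *
        Real.exp (((if j / 2 ^ l + 2 ≤ p then u j l p else 0 : ℕ) : ℝ) / k) := by
    unfold wp
    rw [us_succ, div_mul_eq_mul_div, ← Real.exp_add]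
    congr 2
    push_cast
    ring
  have e2 : Real.exp ((us u l p j : ℝ) / k - ds k s l p j) / 4 ^ (s - l) =
      wp k s u l p j * Real.exp (dr k s l p j) := by
    unfold wp
    rw [hds, div_mul_eq_mul_div, ← Real.exp_add]
    congr 2
    ring
  have a1 : Real.exp (((if j / 2 ^ l + 2 ≤ p then u j l p else 0 : ℕ) : ℝ) / k) ≤
      1 + 2 * (((if j / 2 ^ l + 2 ≤ p then u j l p else 0 : ℕ) : ℝ) / k) := by
    apply exp_le _ (by positivity)
    rw [div_le_one hk0]
    have : (if j / 2 ^ l + 2 ≤ p then u j l p else 0) ≤ k := by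
      split_ifs
      · exact hu
      · exact Nat.zero_le _
    exact_mod_cast this
  have a2 : 1 + dr k s l p j ≤ Real.exp (dr k s l p j) := by
    have := Real.add_one_le_exp (dr k s l p j)
    linarith
  have a3 := mul_le_mul_of_nonneg_left a1 hw0
  have a4 := mul_le_mul_of_nonneg_left a2 hw0
  rw [e1, e2]
  have e3 : (if j / 2 ^ l + 2 ≤ p then wp k s u l p j * u j l p else 0) =
      wp k s u l p j * ((if j / 2 ^ l + 2 ≤ p then u j l p else 0 : ℕ) : ℝ) := by
    split_ifs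
    · rfl
    · simp
  rw [e3]
  generalize (((if j / 2 ^ l + 2 ≤ p then u j l p else 0 : ℕ)) : ℝ) = U at a1 a3 ⊢
  have e4 : 2 / (k : ℝ) * (wp k s u l p j * U - wp k s u l p j * (k / 2 * dr k s l p j)) =
      wp k s u l p j * (1 + 2 * (U / k)) - wp k s u l p j * (1 + dr k s l p j) := by
    field_simp
    ring
  rw [e4]
  linarith

theorem mt3_pots3 : G_POTI → G_POTS3 := by
  intro hP k s u ut j hk hs hj hu hw
  have hk0 : (0 : ℝ) < k := by exact_mod_cast hk
  rw [hP k s u j hk hs hj] at hw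
  have h1 : ∑ l ∈ Icc 1 s, ∑ p ∈ range (2 ^ (s + 2 - l)),
        Real.exp ((us u l p (j + 1) : ℝ) / k - ds k s l p (j + 1)) / 4 ^ (s - l) ≤
      ∑ l ∈ Icc 1 s, ∑ p ∈ range (2 ^ (s + 2 - l)),
        (Real.exp ((us u l p j : ℝ) / k - ds k s l p j) / 4 ^ (s - l) +
        2 / k * ((if j / 2 ^ l + 2 ≤ p then wp k s u l p j * u j l p else 0) -
          wp k s u l p j * (k / 2 * dr k s l p j))) :=
    sum_le_sum fun l _ => sum_le_sum fun p _ => term_le k s u j l p hk (hu l p)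
  simp only [sum_add_distrib, ← mul_sum, sum_sub_distrib] at h1
  have e1 : 128 / (k : ℝ) * (∑ i ∈ range (j + 1), (ut i : ℝ) - 2 ^ 66 * ((j + 1 : ℕ) : ℝ)) =
      128 / k * (∑ i ∈ range j, (ut i : ℝ) - 2 ^ 66 * j) + 2 / k * (64 * ut j - 2 ^ 72) := by
    rw [sum_range_succ]
    push_cast
    ring
  have e2 : 0 ≤ 2 / (k : ℝ) := by positivity
  have e3 := mul_nonpos_of_nonneg_of_nonpos e2 (sub_nonpos.2 hw)
  unfold pot3
  rw [e1]
  generalize hA : ∑ l ∈ Icc 1 s, ∑ p ∈ range (2 ^ (s + 2 - l)),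
      (if j / 2 ^ l + 2 ≤ p then wp k s u l p j * (u j l p : ℝ) else 0) = A at h1 e3
  generalize hB : ∑ l ∈ Icc 1 s, ∑ p ∈ range (2 ^ (s + 2 - l)),
      wp k s u l p j * (k / 2 * dr k s l p j) = B at h1 e3
  have e4 : 2 / (k : ℝ) * (A + 64 * ut j - (B + 2 ^ 72)) =
      2 / k * (A - B) + 2 / k * (64 * ut j - 2 ^ 72) := by ring
  linarith

end Pool.Agent.Helper98.MT3
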